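import Mathlib
import Pool.Agent.Helper34.TF.CoefB
import Pool.Agent.Helper34.TF.Desc

/-!
# The descent for an abstract law
-/

set_option linter.unusedSectionVars false

namespace Pool.Agent.Helper34.TF

open MvPolynomial

variable {ι : Type*} [DecidableEq ι] [Fintype ι] {F : Type*} [CommRing F]

/-- The operation `op` is the addition up to lower Mahler degree, on functions of degree at most
`n₀`. -/
def Law (op : (ι →₀ ℕ) → (ι →₀ ℕ) → (ι →₀ ℕ)) (n₀ : ℕ) : Prop :=
  ∀ (g : (ι →₀ ℕ) → F) (n : ℕ), n ≤ n₀ → (∀ γ : ι →₀ ℕ, n < γ.degree → coV g γ = 0) →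
    ∀ γ' γ'' : ι →₀ ℕ, n ≤ γ'.degree + γ''.degree →
      coV (fun y => coV (fun x => g (op x y)) γ') γ'' = coV g (γ' + γ'')

lemma Law.apply {op : (ι →₀ ℕ) → (ι →₀ ℕ) → (ι →₀ ℕ)} {n₀ : ℕ} (hop : Law (F := F) op n₀)
    (g : (ι →₀ ℕ) → F) (n b : ℕ) (hn : n ≤ n₀) (hg : ∀ γ : ι →₀ ℕ, n < γ.degree + b → coV g γ = 0)
    (γ' γ'' : ι →₀ ℕ) (h : n ≤ γ'.degree + γ''.degree + b) :
    coV (fun y => coV (fun x => g (op x y)) γ') γ'' = coV g (γ' + γ'') :=
  hop g (n - b) (by omega) (fun γ hγ => hg γ (by omega)) γ' γ'' (by omega)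

/-- top coefficients of the bar coboundary -/
theorem co_barL {op : (ι →₀ ℕ) → (ι →₀ ℕ) → (ι →₀ ℕ)} {n₀ : ℕ}
    (hop : Law (F := F) op n₀)
    (Γ : List (ι →₀ ℕ)) (f : List (ι →₀ ℕ) → F) (n a : ℕ) (hn : n ≤ n₀)
    (hf : ∀ Γ' : List (ι →₀ ℕ), Γ'.length + 1 = Γ.length → n < a + wt Γ' → co f Γ' = 0)
    (hΓ : n ≤ a + wt Γ) :
    co (bar op f) Γ = bar (· + ·) (res Γ.sum (co f)) Γ := by
  induction Γ generalizing f a with
  | nil => rfl
  | cons γ Γ ih =>
    rcases Γ with _ | ⟨γ'', Γ⟩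
    · -- one slot
      rw [co_cons, co_nil]
      simp only [bar_one]
      rw [coV_const]
      simp only [res, List.sum_nil, List.sum_cons, add_zero, co_nil]
      by_cases h : γ = 0
      · rw [if_pos h, if_pos h.symm]
      · rw [if_neg h, if_neg (fun h' => h h'.symm)]
    · -- decomposition of the bar operator
      have e1 : co (bar op f) (γ :: γ'' :: Γ) =
          coV (fun x => coV (fun y => co (fun L => f (op x y :: L)) Γ) γ'') γ
            - co (bar op (fun M => coV (fun x => f (x :: M)) γ)) (γ'' :: Γ) := by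
        rw [co_cons', co_cons]
        have h1 : (fun x => co (fun L => bar op f (x :: L)) (γ'' :: Γ)) = fun x =>
            coV (fun y => co (fun L => f (op x y :: L)) Γ) γ''
              - co (fun L => bar op (fun m => f (x :: m)) L) (γ'' :: Γ) := by
          funext x
          rw [co_cons', co_cons', ← coV_sub]
          congr 1
          funext y
          rw [← (isLin_co Γ).sub]
          congr 1
        rw [h1, coV_sub]
        congr 1
        rw [← (isLin_co (γ'' :: Γ)).coV_comm (fun x L => bar op (fun m => f (x :: m)) L) γ]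
        rw [← co_cons]
        congr 1
        funext M
        exact ((isLin_bar op M).coV_comm (fun x m => f (x :: m)) γ).symm
      rw [e1]
      -- first part
      have e2 : coV (fun x => coV (fun y => co (fun L => f (op x y :: L)) Γ) γ'') γ =
          co f ((γ + γ'') :: Γ) := by
        have h1 := hop.apply (fun x => co (fun L => f (x :: L)) Γ) n (a + wt Γ) hn
          (fun γ' hγ' => by
            rw [← co_cons']
            apply hf (γ' :: Γ) (by simp)
            rw [wt_cons]; omega) γ γ'' (by simp only [wt_cons] at hΓ; omega)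
        rw [co_cons', ← h1]
        have h2 := (isLin_coV (F := F) γ).coV_comm
          (fun y x => co (fun L => f (op x y :: L)) Γ) γ''
        exact h2
      rw [e2]
      -- second part
      have e3 := ih (fun M => coV (fun x => f (x :: M)) γ) (a + γ.degree)
        (fun Γ' hl hn => by
          rw [← co_cons]
          apply hf (γ :: Γ') (by simp at hl ⊢; omega)
          rw [wt_cons]; omega)
        (by simp only [wt_cons] at hΓ ⊢; omega)
      rw [e3, bar_cons]
      congr 1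
      · simp only [res, List.sum_cons, add_assoc, if_true]
      · congr 1
        funext Γ'
        simp only [res, List.sum_cons, add_right_inj]
        rfl

theorem co_delL {op : (ι →₀ ℕ) → (ι →₀ ℕ) → (ι →₀ ℕ)} {n₀ : ℕ}
    (hop : Law (F := F) op n₀)
    (Γ : List (ι →₀ ℕ)) (f : List (ι →₀ ℕ) → F) (n : ℕ) (hn : n ≤ n₀)
    (hf : ∀ Γ' : List (ι →₀ ℕ), Γ'.length + 1 = Γ.length → n < wt Γ' → co f Γ' = 0)
    (hΓ : n ≤ wt Γ) :
    co (del op f) Γ = del (· + ·) (res Γ.sum (co f)) Γ := by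
  rcases Γ with _ | ⟨γ, Γ⟩
  · rfl
  · have h1 := co_barL hop (γ :: Γ) f n 0 hn (by simpa using hf) (by simpa using hΓ)
    rw [del_cons, ← h1]
    rw [co_cons, co_cons]
    have e : (fun L => coV (fun x => del op f (x :: L)) γ) = fun L =>
        (if γ = 0 then f L else 0)
          - coV (fun x => bar op f (x :: L)) γ := by
      funext L
      rw [← coV_const (f L) γ, ← coV_sub]
      rfl
    rw [e, (isLin_co Γ).sub]
    congr 1
    simp only [res, List.sum_cons]
    by_cases h : γ = 0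
    · simp [h]
    · rw [if_neg (by simpa using fun h' => h h')]
      simp only [h, if_false]
      exact (isLin_co Γ).zero

section
variable {op : (ι →₀ ℕ) → (ι →₀ ℕ) → (ι →₀ ℕ)} {n₀ : ℕ} (hop : Law (F := F) op n₀)
    (hassoc : ∀ x y z : ι →₀ ℕ, op (op x y) z = op x (op y z))

include hop hassoc

theorem descent_stepL (s n : ℕ) (hn : Fintype.card ι < n) (hn₀ : n ≤ n₀) (f : List (ι →₀ ℕ) → F)
    (hf : ∀ Γ : List (ι →₀ ℕ), Γ.length = s → n < wt Γ → co f Γ = 0)
    (hD : ∀ Γ : List (ι →₀ ℕ), Γ.length = s + 1 → wt Γ = n →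
      co (del op f) Γ = 0) :
    ∃ f' : List (ι →₀ ℕ) → F,
      (∀ Γ : List (ι →₀ ℕ), Γ.length = s → n ≤ wt Γ → co f' Γ = 0) ∧
      ∀ Γ, del op f' Γ = del op f Γ := by
  have key : ∀ α : ι →₀ ℕ, α.degree = n → ∃ b : List (ι →₀ ℕ) → F, (∀ Γ, Γ.sum ≠ α → b Γ = 0) ∧
      ∀ Γ : List (ι →₀ ℕ), Γ.length = s → Γ.sum = α → del (· + ·) b Γ = co f Γ := by
    intro α hα
    obtain ⟨i, hi⟩ := exists_two_le (α := α) (by omega)
    apply acyclic α i hi (co f) s
    intro Γ hlen hsum
    rw [← hsum, ← co_delL hop Γ f n hn₀ (fun Γ' hl hw => hf Γ' (by omega) hw)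
      (by rw [wt_eq_degree_sum, hsum, hα])]
    exact hD Γ hlen (by rw [wt_eq_degree_sum, hsum, hα])
  choose! bb hb1 hb2 using key
  set b : List (ι →₀ ℕ) → F := fun Γ => if Γ.sum.degree = n then bb Γ.sum Γ else 0 with hbdef
  refine ⟨fun m => f m - del op (ev b) m, ?_, ?_⟩
  · intro Γ hlen hwt
    have h1 := co_delL hop Γ (ev b) n hn₀ (fun Γ' _ hlt => by
      rw [co_ev, hbdef]
      simp only
      rw [if_neg]
      rw [← wt_eq_degree_sum]; omega) hwt
    rw [(isLin_co Γ).sub f, h1]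
    have h2 : res Γ.sum (co (ev b)) = res Γ.sum b := by
      funext Γ'; simp only [res, co_ev]
    rw [h2]
    rcases Nat.lt_or_ge n (wt Γ) with h3 | h3
    · rw [hf Γ hlen h3, del_of_zero]
      · simp
      · intro m _
        unfold res
        split_ifs with h4
        · rw [hbdef]; simp only
          rw [if_neg]
          rw [h4, ← wt_eq_degree_sum]; omega
        · rfl
    · have h4 : Γ.sum.degree = n := by rw [← wt_eq_degree_sum]; omega
      have h5 : res Γ.sum b = bb Γ.sum := by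
        funext Γ'
        unfold res
        by_cases h6 : Γ'.sum = Γ.sum
        · rw [if_pos h6, hbdef]
          simp only
          rw [h6, if_pos h4]
        · rw [if_neg h6, hb1 _ h4 _ h6]
      rw [h5, hb2 _ h4 Γ hlen rfl, sub_self]
  · intro Γ
    rw [del_sub, del_del _ hassoc, sub_zero]

theorem descentL (s : ℕ) (D : List (ι →₀ ℕ) → F)
    (hDtop : ∀ Γ : List (ι →₀ ℕ), Γ.length = s + 1 → Fintype.card ι < wt Γ → co D Γ = 0)
    (j : ℕ) (hj : Fintype.card ι + j ≤ n₀) (f : List (ι →₀ ℕ) → F)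
    (hf : ∀ Γ : List (ι →₀ ℕ), Γ.length = s → Fintype.card ι + j < wt Γ → co f Γ = 0)
    (hD : ∀ Γ : List (ι →₀ ℕ), Γ.length = s + 1 → del op f Γ = D Γ) :
    ∃ f' : List (ι →₀ ℕ) → F,
      (∀ Γ : List (ι →₀ ℕ), Γ.length = s → Fintype.card ι < wt Γ → co f' Γ = 0) ∧
      ∀ Γ : List (ι →₀ ℕ), Γ.length = s + 1 →
        del op f' Γ = D Γ := by
  induction j generalizing f with
  | zero => exact ⟨f, by simpa using hf, hD⟩
  | succ j ih =>
    obtain ⟨f', h1, h2⟩ := descent_stepL hop hassoc s (Fintype.card ι + (j + 1))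
      (by omega) (by omega) f hf (fun Γ hlen hwt => by
        rw [co_congr (g := D) Γ (fun m hm => hD m (by omega))]
        exact hDtop Γ hlen (by omega))
    exact ih (by omega) f' (fun Γ hlen hlt => h1 Γ hlen (by omega)) (fun Γ hlen => by rw [h2, hD Γ hlen])

/-- the conclusion of the descent -/
theorem shuf_co_eq_zeroL (s : ℕ) (D : List (ι →₀ ℕ) → F)
    (hDtop : ∀ Γ : List (ι →₀ ℕ), Γ.length = s + 1 → Fintype.card ι < wt Γ → co D Γ = 0)
    (j : ℕ) (hj : Fintype.card ι + j ≤ n₀) (f : List (ι →₀ ℕ) → F)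
    (hf : ∀ Γ : List (ι →₀ ℕ), Γ.length = s → Fintype.card ι + j < wt Γ → co f Γ = 0)
    (hD : ∀ Γ : List (ι →₀ ℕ), Γ.length = s + 1 → del op f Γ = D Γ)
    (T : List (ι →₀ ℕ)) (hT : T.length = s + 1) (hTw : Fintype.card ι ≤ wt T) :
    shuf T (co D) = 0 := by
  obtain ⟨f', h1, h2⟩ := descentL hop hassoc s D hDtop j hj f hf hD
  rw [← shuf_del (· + ·) add_comm T (res T.sum (co f'))]
  apply shuf_congr
  intro m hm hsum
  rw [← hsum, ← co_delL hop m f' (Fintype.card ι) (by omega)
    (fun Γ' hl hlt => h1 Γ' (by omega) hlt)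
    (by rw [wt_eq_degree_sum, hsum, ← wt_eq_degree_sum]; exact hTw)]
  exact (co_congr m (fun m' hm' => h2 m' (by omega))).symm

end

end Pool.Agent.Helper34.TF
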