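import Mathlib

/-!
# The augmentation ideal of a finite `p`-group is nilpotent when `p` is nilpotent
-/

set_option autoImplicit false

namespace Pool.Agent.Helper34.PA

open Multiplicative
open scoped commutatorElement

section
variable {Q : Type*} [Group Q] (n : ℕ)

/-- action of the group on the group ring -/
noncomputable def act : Q →* MulAut (Multiplicative (MonoidAlgebra (ZMod n) Q)) where
  toFun h :=
    { toFun := fun m => ofAdd (MonoidAlgebra.of (ZMod n) Q h * toAdd m)
      invFun := fun m => ofAdd (MonoidAlgebra.of (ZMod n) Q h⁻¹ * toAdd m)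
      left_inv := fun m => by
        show ofAdd (MonoidAlgebra.of (ZMod n) Q h⁻¹ *
          toAdd (ofAdd (MonoidAlgebra.of (ZMod n) Q h * toAdd m))) = m
        rw [toAdd_ofAdd, ← mul_assoc, ← map_mul, inv_mul_cancel, map_one, one_mul, ofAdd_toAdd]
      right_inv := fun m => by
        show ofAdd (MonoidAlgebra.of (ZMod n) Q h *
          toAdd (ofAdd (MonoidAlgebra.of (ZMod n) Q h⁻¹ * toAdd m))) = m
        rw [toAdd_ofAdd, ← mul_assoc, ← map_mul, mul_inv_cancel, map_one, one_mul, ofAdd_toAdd]
      map_mul' := fun m m' => by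
        rw [toAdd_mul, mul_add, ofAdd_add] }
  map_one' := by
    refine MulEquiv.ext fun m => ?_
    show ofAdd (MonoidAlgebra.of (ZMod n) Q 1 * toAdd m) = m
    rw [map_one, one_mul, ofAdd_toAdd]
  map_mul' h h' := by
    refine MulEquiv.ext fun m => ?_
    show ofAdd (MonoidAlgebra.of (ZMod n) Q (h * h') * toAdd m) =
      ofAdd (MonoidAlgebra.of (ZMod n) Q h * toAdd (ofAdd (MonoidAlgebra.of (ZMod n) Q h' * toAdd m)))
    rw [toAdd_ofAdd, map_mul (MonoidAlgebra.of (ZMod n) Q) h h', mul_assoc]

lemma act_apply (h : Q) (m : MonoidAlgebra (ZMod n) Q) :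
    act n h (ofAdd m) = ofAdd (MonoidAlgebra.of (ZMod n) Q h * m) := rfl

lemma inl_mem (l : List Q) (m : MonoidAlgebra (ZMod n) Q) :
    (SemidirectProduct.inl (ofAdd ((l.map fun h => MonoidAlgebra.of (ZMod n) Q h - 1).prod * m)) :
      Multiplicative (MonoidAlgebra (ZMod n) Q) ⋊[act n] Q) ∈
      Subgroup.lowerCentralSeries (⊤ : Subgroup (Multiplicative (MonoidAlgebra (ZMod n) Q) ⋊[act n] Q))
        l.length := by
  induction l with
  | nil => exact Subgroup.mem_top _
  | cons h l ih =>
    set m' := (l.map fun h => MonoidAlgebra.of (ZMod n) Q h - 1).prod * m with hm'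
    rw [List.map_cons, List.prod_cons, mul_assoc, ← hm', List.length_cons,
      Subgroup.lowerCentralSeries_succ]
    have h1 := Subgroup.commutator_mem_commutator ih (Subgroup.mem_top
      (SemidirectProduct.inr h : Multiplicative (MonoidAlgebra (ZMod n) Q) ⋊[act n] Q))
    have h2 : ⁅(SemidirectProduct.inl (ofAdd m') :
        Multiplicative (MonoidAlgebra (ZMod n) Q) ⋊[act n] Q),
        (SemidirectProduct.inr h : Multiplicative (MonoidAlgebra (ZMod n) Q) ⋊[act n] Q)⁆⁻¹ =
        SemidirectProduct.inl (ofAdd ((MonoidAlgebra.of (ZMod n) Q h - 1) * m')) := by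
      rw [commutatorElement_inv, commutatorElement_def, ← map_inv SemidirectProduct.inr h,
        ← SemidirectProduct.inl_aut, act_apply,
        ← map_inv, ← map_mul, sub_mul, one_mul, ofAdd_sub, div_eq_mul_inv]
    rw [← h2]
    exact inv_mem h1

end

lemma map_P {Q : Type*} [Group Q] (R : Type*) [CommRing R] (l : List Q) :
    MonoidAlgebra.mapRingHom Q (Int.castRingHom R)
      ((l.map fun h => MonoidAlgebra.of ℤ Q h - 1).prod) =
      (l.map fun h => MonoidAlgebra.of R Q h - 1).prod := by
  rw [map_list_prod, List.map_map]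
  congr 1
  apply List.map_congr_left
  intro h _
  simp only [Function.comp, map_sub, map_one, MonoidAlgebra.of_apply,
    MonoidAlgebra.mapRingHom_single]

theorem exists_nilp (p s : ℕ) [hp : Fact p.Prime] {Q : Type*} [Group Q] [Finite Q]
    (hQ : IsPGroup p Q) {k : Type*} [CommRing k] (hk : (p : k) ^ s = 0) :
    ∃ L, ∀ l : List Q, L ≤ l.length → (l.map fun h => MonoidAlgebra.of k Q h - 1).prod = 0 := by
  set n := p ^ s with hn
  have : NeZero n := ⟨pow_ne_zero _ hp.out.ne_zero⟩
  have hfin0 : Finite (Q →₀ ZMod n) := Finite.of_injective (fun f => (f : Q → ZMod n))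
    DFunLike.coe_injective
  have hfin : Finite (MonoidAlgebra (ZMod n) Q) :=
    Finite.of_equiv _ (MonoidAlgebra.coeffEquiv (R := ZMod n) (M := Q)).symm
  have hfin2 : Finite (Multiplicative (MonoidAlgebra (ZMod n) Q) ⋊[act n] Q) :=
    Finite.of_equiv _ SemidirectProduct.equivProd.symm
  have hpg : IsPGroup p (Multiplicative (MonoidAlgebra (ZMod n) Q) ⋊[act n] Q) := by
    intro x
    obtain ⟨a, ha⟩ := hQ x.right
    refine ⟨a + s, ?_⟩
    rw [pow_add, pow_mul]
    have h1 : (x ^ p ^ a).right = 1 := by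
      have : (SemidirectProduct.rightHom (x ^ p ^ a)) = 1 := by
        rw [map_pow]; exact ha
      exact this
    have h2 : x ^ p ^ a = SemidirectProduct.inl (x ^ p ^ a).left := by
      ext
      · rfl
      · exact h1
    rw [h2, ← map_pow, ← hn]
    have h3 : (x ^ p ^ a).left ^ n = 1 := by
      have : ∀ m : MonoidAlgebra (ZMod n) Q, n • m = 0 := by
        intro m
        have h4 : (n : MonoidAlgebra (ZMod n) Q) = 0 := by
          have := map_natCast (algebraMap (ZMod n) (MonoidAlgebra (ZMod n) Q)) n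
          rw [← this, ZMod.natCast_self, map_zero]
        rw [nsmul_eq_mul, h4, zero_mul]
      exact this (toAdd (x ^ p ^ a).left)
    rw [h3, map_one]
  obtain ⟨L, hL⟩ := Subgroup.nilpotent_iff_lowerCentralSeries.1 hpg.isNilpotent
  refine ⟨L, fun l hl => ?_⟩
  have h1 : (l.map fun h => MonoidAlgebra.of (ZMod n) Q h - 1).prod = 0 := by
    have h2 := inl_mem n l 1
    have h3 := Subgroup.lowerCentralSeries_antitone _ hl h2
    rw [hL, Subgroup.mem_bot, mul_one] at h3
    exact ofAdd.injective (SemidirectProduct.inl_injective (h3.trans (map_one _).symm))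
  -- transfer to `k`
  set P : MonoidAlgebra ℤ Q := (l.map fun h => MonoidAlgebra.of ℤ Q h - 1).prod with hP
  rw [← map_P k l]
  apply MonoidAlgebra.coeff_injective
  ext a
  rw [MonoidAlgebra.coeff_mapRingHom]
  have h4 : ((P.coeff a : ℤ) : ZMod n) = 0 := by
    have h5 := congrArg (fun z => MonoidAlgebra.coeff z a) ((map_P (ZMod n) l).trans h1)
    simp only [MonoidAlgebra.coeff_mapRingHom] at h5
    exact h5
  rw [ZMod.intCast_zmod_eq_zero_iff_dvd] at h4
  obtain ⟨t, ht⟩ := h4
  rw [ht, hn]
  simp [hk]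

end Pool.Agent.Helper34.PA
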