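import Mathlib
import Pool.Agent.Helper34.TF.Top

/-!
# Words in the elements `g i - 1`, ordered monomials
-/

set_option autoImplicit false

namespace Pool.Agent.Helper34.PA

open Pool.Agent.Helper34.TF

section words
variable (k : Type*) [CommRing k] {A : Type*} [Ring A] [Algebra k A] {r : ℕ} (β : Fin r → A)

/-- product of a word -/
def wd (w : List (Fin r)) : A := (w.map β).prod

lemma wd_nil : wd β [] = 1 := rfl
lemma wd_cons (i : Fin r) (w : List (Fin r)) : wd β (i :: w) = β i * wd β w := by
  simp [wd]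
lemma wd_append (w w' : List (Fin r)) : wd β (w ++ w') = wd β w * wd β w' := by
  simp [wd]

/-- span of the words of length at least `m` -/
def W (m : ℕ) : Submodule k A := Submodule.span k {a | ∃ w : List (Fin r), m ≤ w.length ∧ a = wd β w}

variable {β}

lemma wd_mem_W (w : List (Fin r)) {m : ℕ} (h : m ≤ w.length) : wd β w ∈ W k β m :=
  Submodule.subset_span ⟨w, h, rfl⟩

lemma W_anti {m n : ℕ} (h : m ≤ n) : W k β n ≤ W k β m := by
  apply Submodule.span_mono
  rintro _ ⟨w, hw, rfl⟩
  exact ⟨w, h.trans hw, rfl⟩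

lemma mul_mem_W {a b : A} {m n : ℕ} (ha : a ∈ W k β m) (hb : b ∈ W k β n) :
    a * b ∈ W k β (m + n) := by
  have h : W k β m * W k β n ≤ W k β (m + n) := by
    rw [W, W, Submodule.span_mul_span]
    apply Submodule.span_le.2
    rintro _ ⟨_, ⟨w, hw, rfl⟩, _, ⟨w', hw', rfl⟩, rfl⟩
    simp only [← wd_append]
    exact wd_mem_W k _ (by rw [List.length_append]; omega)
  exact h (Submodule.mul_mem_mul ha hb)

lemma one_mem_W : (1 : A) ∈ W k β 0 := wd_mem_W k [] (Nat.zero_le _)

lemma beta_mem_W (i : Fin r) : β i ∈ W k β 1 := by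
  have := wd_mem_W (β := β) k [i] (m := 1) (by simp)
  simpa [wd] using this

variable {k}

/-- reordering a word changes it by longer words -/
lemma perm_mem (hc : ∀ i j, β j * β i - β i * β j ∈ W k β 3) {w w' : List (Fin r)}
    (h : w.Perm w') : wd β w - wd β w' ∈ W k β (w.length + 1) := by
  induction h with
  | nil => simp
  | cons x h ih =>
    rw [wd_cons, wd_cons, ← mul_sub, List.length_cons, add_comm _ 1, add_comm 1]
    have := mul_mem_W k (beta_mem_W (β := β) k x) ih
    rw [show ∀ n, 1 + (n + 1) = n + 1 + 1 from fun n => by omega] at this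
    exact this
  | swap x y l =>
    rw [wd_cons, wd_cons, wd_cons, wd_cons, ← mul_assoc, ← mul_assoc, ← sub_mul]
    have := mul_mem_W k (hc x y) (wd_mem_W (β := β) k l (le_refl _))
    rw [List.length_cons, List.length_cons]
    exact W_anti k (by omega) this
  | trans h1 h2 ih1 ih2 =>
    have := Submodule.add_mem _ ih1 (h1.length_eq ▸ ih2)
    simpa using this

variable (β) in
/-- ordered monomial -/
def mono (γ : Fin r →₀ ℕ) : A := (List.ofFn fun i => β i ^ γ i).prod

/-- sorted word -/
def srt (γ : Fin r →₀ ℕ) : List (Fin r) := (List.ofFn fun i => List.replicate (γ i) i).flatten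

lemma wd_srt (γ : Fin r →₀ ℕ) : wd β (srt γ) = mono β γ := by
  rw [wd, srt, mono, List.map_flatten, List.prod_flatten, List.map_map, List.map_ofFn]
  congr 2
  funext i
  simp

lemma count_srt (γ : Fin r →₀ ℕ) (i : Fin r) : (srt γ).count i = γ i := by
  rw [srt, List.count_flatten, List.map_ofFn, List.sum_ofFn, Finset.sum_eq_single i]
  · simp
  · intro j _ hj
    simp [List.count_replicate, hj]
  · intro h
    exact absurd (Finset.mem_univ _) h

lemma length_srt (γ : Fin r →₀ ℕ) : (srt γ).length = γ.degree := by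
  rw [srt, List.length_flatten, List.map_ofFn, List.sum_ofFn, Finsupp.degree_eq_sum]
  apply Finset.sum_congr rfl
  intro i _
  simp

/-- counting vector -/
noncomputable def cnt (w : List (Fin r)) : Fin r →₀ ℕ :=
  Finsupp.equivFunOnFinite.symm (fun i => w.count i)

lemma cnt_apply (w : List (Fin r)) (i : Fin r) : cnt w i = w.count i := rfl

lemma perm_srt_cnt (w : List (Fin r)) : w.Perm (srt (cnt w)) := by
  rw [List.perm_iff_count]
  intro i
  rw [count_srt, cnt_apply]

lemma perm_srt_add (γ γ' : Fin r →₀ ℕ) : (srt γ ++ srt γ').Perm (srt (γ + γ')) := by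
  rw [List.perm_iff_count]
  intro i
  rw [List.count_append, count_srt, count_srt, count_srt, Finsupp.add_apply]

/-- a functional vanishing on the ordered monomials of degree `> n` vanishes on the words of length
`> n` -/
theorem top_vanish (hc : ∀ i j, β j * β i - β i * β j ∈ W k β 3) {L : ℕ}
    (hL : ∀ w : List (Fin r), L ≤ w.length → wd β w = 0) (Φ : A →ₗ[k] k) (n : ℕ)
    (hΦ : ∀ γ : Fin r →₀ ℕ, n < γ.degree → Φ (mono β γ) = 0) (w : List (Fin r))
    (hw : n < w.length) : Φ (wd β w) = 0 := by
  have key : ∀ j, ∀ w : List (Fin r), L ≤ w.length + j → n < w.length → Φ (wd β w) = 0 := by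
    intro j
    induction j with
    | zero => intro w h1 _; rw [hL w (by omega), map_zero]
    | succ j ih =>
      intro w h1 h2
      have h3 := perm_mem hc (perm_srt_cnt w)
      have h4 : W k β (w.length + 1) ≤ LinearMap.ker Φ := by
        apply Submodule.span_le.2
        rintro _ ⟨w', hw', rfl⟩
        exact ih w' (by omega) (by omega)
      have h5 : Φ (wd β w - wd β (srt (cnt w))) = 0 := h4 h3
      rw [map_sub, wd_srt, hΦ, sub_zero] at h5
      · exact h5
      · rw [← length_srt, ← (perm_srt_cnt w).length_eq]; exact h2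
  exact key L w (by omega) hw

theorem top_mul (hc : ∀ i j, β j * β i - β i * β j ∈ W k β 3) {L : ℕ}
    (hL : ∀ w : List (Fin r), L ≤ w.length → wd β w = 0) (Φ : A →ₗ[k] k) (n : ℕ)
    (hΦ : ∀ γ : Fin r →₀ ℕ, n < γ.degree → Φ (mono β γ) = 0) (γ γ' : Fin r →₀ ℕ)
    (h : n ≤ γ.degree + γ'.degree) : Φ (mono β γ * mono β γ') = Φ (mono β (γ + γ')) := by
  rw [← wd_srt, ← wd_srt, ← wd_srt, ← wd_append]
  have h3 := perm_mem hc (perm_srt_add γ γ')
  rw [List.length_append, length_srt, length_srt] at h3
  have h4 : W k β (γ.degree + γ'.degree + 1) ≤ LinearMap.ker Φ := by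
    apply Submodule.span_le.2
    rintro _ ⟨w', hw', rfl⟩
    exact top_vanish hc hL Φ n hΦ w' (by omega)
  have h5 : Φ (wd β (srt γ ++ srt γ') - wd β (srt (γ + γ'))) = 0 := h4 h3
  rw [map_sub, sub_eq_zero] at h5
  exact h5

end words

section coeff
variable {k : Type*} [CommRing k] {A : Type*} [Ring A] [Algebra k A] {r : ℕ}

/-- ordered products of powers -/
def psi {Q : Type*} [Monoid Q] (g : Fin r → Q) (x : Fin r →₀ ℕ) : Q :=
  (List.ofFn fun i => g i ^ x i).prod

lemma map_psi {Q Q' : Type*} [Monoid Q] [Monoid Q'] (T : Q →* Q') (g : Fin r → Q)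
    (x : Fin r →₀ ℕ) : T (psi g x) = psi (fun i => T (g i)) x := by
  unfold psi
  rw [map_list_prod, List.map_ofFn]
  congr 2
  funext i
  simp

lemma coV_psi (a : Fin r → A) (Φ : A →ₗ[k] k) (γ : Fin r →₀ ℕ) :
    coV (fun x => Φ (psi a x)) γ = Φ (mono (fun i => a i - 1) γ) := by
  set h : (Fin r →₀ ℕ) → (Fin r →₀ ℕ) → k := fun δ x =>
    Φ ((List.ofFn fun i => a i ^ x i * (a i - 1) ^ δ i).prod) with hh
  have hstep : ∀ δ x i, h δ (x + Finsupp.single i 1) - h δ x = h (δ + Finsupp.single i 1) x := by
    intro δ x i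
    classical
    set m : Fin r → A := fun j => a j ^ x j * (a j - 1) ^ δ j with hm
    have e1 : (fun j => a j ^ (x + Finsupp.single i 1 : Fin r →₀ ℕ) j * (a j - 1) ^ δ j) =
        Function.update m i (a i * (a i ^ x i * (a i - 1) ^ δ i)) := by
      funext j
      rcases eq_or_ne j i with rfl | hj
      · rw [Function.update_self, Finsupp.add_apply, Finsupp.single_eq_same, pow_succ', mul_assoc]
      · rw [Function.update_of_ne hj, Finsupp.add_apply, Finsupp.single_eq_of_ne hj, add_zero]
    have e2 : (fun j => a j ^ x j * (a j - 1) ^ (δ + Finsupp.single i 1 : Fin r →₀ ℕ) j) =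
        Function.update m i (a i * (a i ^ x i * (a i - 1) ^ δ i) - a i ^ x i * (a i - 1) ^ δ i) := by
      funext j
      rcases eq_or_ne j i with rfl | hj
      · rw [Function.update_self, Finsupp.add_apply, Finsupp.single_eq_same, pow_succ',
          ← mul_assoc, ← mul_assoc]
        have : a j ^ x j * (a j - 1) = (a j - 1) * a j ^ x j := by
          rw [mul_sub, sub_mul, mul_one, one_mul, ← pow_succ, ← pow_succ']
        rw [this, sub_mul, sub_mul, one_mul]
      · rw [Function.update_of_ne hj, Finsupp.add_apply, Finsupp.single_eq_of_ne hj, add_zero]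
    have e3 : m = Function.update m i (a i ^ x i * (a i - 1) ^ δ i) := by
      rw [hm]; exact (Function.update_eq_self i _).symm
    have hml := (MultilinearMap.mkPiAlgebraFin k r A).map_update_sub m i
      (a i * (a i ^ x i * (a i - 1) ^ δ i)) (a i ^ x i * (a i - 1) ^ δ i)
    simp only [MultilinearMap.mkPiAlgebraFin_apply] at hml
    rw [hh]
    simp only
    rw [e1, e2, hml, ← e3, map_sub]
  have key : ∀ γ δ, coV (h δ) γ = h (δ + γ) 0 := by
    intro γ
    induction γ using finsupp_induction with
    | h0 => intro δ; rw [coV_zero, add_zero]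
    | h1 γ i ih =>
      intro δ
      rw [coV_add_single]
      have : (fun x => h δ (x + Finsupp.single i 1) - h δ x) = h (δ + Finsupp.single i 1) := by
        funext x; exact hstep δ x i
      rw [this, ih, add_assoc, add_comm γ]
  have h0 := key γ 0
  rw [zero_add] at h0
  have e1 : h 0 = fun x => Φ (psi a x) := by
    funext x
    simp [hh, psi]
  have e2 : h γ 0 = Φ (mono (fun i => a i - 1) γ) := by
    simp [hh, mono]
  rw [← e1, ← e2]
  exact h0

end coeff

end Pool.Agent.Helper34.PA
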