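import Mathlib
import Pool.Agent.Helper34.PA.Words
import Pool.Agent.Helper34.PA.Nilp
import Pool.Agent.Helper34.PA.LawA
import Pool.Agent.Helper34.TF.NVB

/-!
# Nonvanishing of the top class for a finite `p`-group with ordered coordinates
-/

set_option autoImplicit false
set_option linter.unusedSectionVars false

namespace Pool.Agent.Helper34.PA

open Pool.Agent.Helper34.TF

section periodic
variable {V : Type*} [AddCommMonoid V] {k : Type*} [CommRing k]

/-- polynomial maps are periodic -/
lemma K_periodic (p s : ℕ) (hk : (p : k) ^ s = 0) (m : ℕ) {h : V → k} (hK : K m h) (u x : V) :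
    h (x + p ^ (s * m) • u) = h x := by
  induction m generalizing h u x with
  | zero => rw [hK, hK]
  | succ m ih =>
    set d : V → k := fun x => h (x + p ^ (s * m) • u) - h x with hd
    have h1 : K m d := hK _
    have key : ∀ j : ℕ, h (x + j • (p ^ (s * m) • u)) = h x + j * d x := by
      intro j
      induction j with
      | zero => simp
      | succ j ihj =>
        have h2 : d (x + p ^ (s * m) • (j • u)) = d x := ih h1 (j • u) x
        have h3 : x + (j + 1) • (p ^ (s * m) • u) = x + j • (p ^ (s * m) • u) + p ^ (s * m) • u := by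
          rw [add_smul, one_smul, add_assoc]
        have h4 : d (x + j • (p ^ (s * m) • u)) = d x := by
          rw [← h2, smul_comm]
        have h5 : d (x + j • (p ^ (s * m) • u)) =
            h (x + j • (p ^ (s * m) • u) + p ^ (s * m) • u) - h (x + j • (p ^ (s * m) • u)) := rfl
        rw [h3]
        have h6 : h (x + j • (p ^ (s * m) • u) + p ^ (s * m) • u) =
            d x + h (x + j • (p ^ (s * m) • u)) := by
          rw [← h4, h5]; ring
        rw [h6, ihj]
        push_cast
        ring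
    have h7 := key (p ^ s)
    rw [show p ^ (s * (m + 1)) • u = p ^ s • (p ^ (s * m) • u) by
      rw [smul_smul, ← pow_add]; congr 2; ring]
    rw [h7]
    push_cast
    rw [hk, zero_mul, add_zero]

lemma K_congr_mod {r : ℕ} (p s : ℕ) (hk : (p : k) ^ s = 0) (n n₀ : ℕ) (hn : n ≤ n₀)
    {h : (Fin r →₀ ℕ) → k} (hK : K (n + 1) h) (x y : Fin r →₀ ℕ)
    (hxy : ∀ i, x i ≡ y i [MOD p ^ (s * (n₀ + 1))]) : h x = h y := by
  set P := p ^ (s * (n₀ + 1)) with hP
  have hper : ∀ u x : Fin r →₀ ℕ, h (x + P • u) = h x := by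
    intro u x
    have h1 := K_periodic p s hk (n₀ + 1) (K_mono (by omega) hK) u x
    exact h1
  set a : Fin r →₀ ℕ := Finsupp.equivFunOnFinite.symm (fun i => (y i - x i) / P) with ha
  set b : Fin r →₀ ℕ := Finsupp.equivFunOnFinite.symm (fun i => (x i - y i) / P) with hb
  have h2 : x + P • a = y + P • b := by
    ext i
    have ha' : a i = (y i - x i) / P := rfl
    have hb' : b i = (x i - y i) / P := rfl
    rw [Finsupp.add_apply, Finsupp.add_apply, Finsupp.smul_apply, Finsupp.smul_apply, ha', hb',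
      smul_eq_mul, smul_eq_mul]
    rcases le_total (x i) (y i) with h3 | h3
    · have h4 := (Nat.modEq_iff_dvd' h3).1 (hxy i)
      rw [Nat.mul_div_cancel' h4, Nat.sub_eq_zero_of_le h3, Nat.zero_div]
      omega
    · have h4 := (Nat.modEq_iff_dvd' h3).1 (hxy i).symm
      rw [Nat.mul_div_cancel' h4, Nat.sub_eq_zero_of_le h3, Nat.zero_div]
      omega
  rw [← hper a x, h2, hper]

end periodic

lemma exists_ofFn {α : Type*} {n : ℕ} (L : List α) (h : L.length = n) :
    ∃ v : Fin n → α, L = List.ofFn v := by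
  subst h
  exact ⟨L.get, (List.ofFn_get _).symm⟩

section maps
variable {F : Type*} [AddCommGroup F] {V V' : Type*}

lemma bar_map (ψ : V → V') (op : V → V → V) (op' : V' → V' → V')
    (h : ∀ x y, ψ (op x y) = op' (ψ x) (ψ y)) (f : List V' → F) (l : List V) :
    bar op (fun m => f (m.map ψ)) l = bar op' f (l.map ψ) := by
  induction l generalizing f with
  | nil => rfl
  | cons x l ih =>
    cases l with
    | nil => rfl
    | cons y l =>
      have h1 := ih (fun m => f (ψ x :: m))
      have h2 : bar op (fun m => f (m.map ψ)) (x :: y :: l) = f (ψ (op x y) :: l.map ψ) -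
          bar op (fun m => f (ψ x :: m.map ψ)) (y :: l) := rfl
      have h3 : bar op' f ((x :: y :: l).map ψ) = f (op' (ψ x) (ψ y) :: l.map ψ) -
          bar op' (fun m => f (ψ x :: m)) ((y :: l).map ψ) := rfl
      rw [h2, h3, h, h1]

lemma del_map (ψ : V → V') (op : V → V → V) (op' : V' → V' → V')
    (h : ∀ x y, ψ (op x y) = op' (ψ x) (ψ y)) (f : List V' → F) (l : List V) :
    del op (fun m => f (m.map ψ)) l = del op' f (l.map ψ) := by
  cases l with
  | nil => rfl
  | cons x l =>
    rw [del_cons, List.map_cons, del_cons]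
    congr 1
    exact bar_map ψ op op' h f (x :: l)

lemma pp_mapG {r : ℕ} {k : Type*} [CommRing k] {Q : Type*} [Group Q] (χ : Q → Fin r → k)
    (hχ : ∀ a b, χ (a * b) = χ a + χ b) (a : Q) (m : List Q) :
    (a :: pp (· * ·) a m).map χ = HSF.pp (· + ·) (χ a) (m.map χ) := by
  induction m generalizing a with
  | nil => rfl
  | cons x m ih =>
    rw [pp_cons, List.map_cons, ih (a * x), hχ]
    rfl

end maps

section alg
variable {k : Type*} [CommRing k] {A : Type*} [Ring A] [Algebra k A] {r : ℕ} {β : Fin r → A}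

lemma list_prod_mem_W0 (L : List A) (hL : ∀ a ∈ L, a ∈ W k β 0) : L.prod ∈ W k β 0 := by
  induction L with
  | nil => exact one_mem_W k
  | cons a L ih =>
    rw [List.prod_cons]
    exact mul_mem_W (m := 0) (n := 0) k (hL a List.mem_cons_self)
      (ih fun b hb => hL b (List.mem_cons_of_mem _ hb))

lemma pow_mem_W0 {a : A} (ha : a ∈ W k β 0) (n : ℕ) : a ^ n ∈ W k β 0 := by
  induction n with
  | zero => rw [pow_zero]; exact one_mem_W k
  | succ n ih => rw [pow_succ]; exact mul_mem_W (m := 0) (n := 0) k ih ha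

lemma list_prod_sub_one (L : List A) (hL : ∀ a ∈ L, a - 1 ∈ W k β 3) : L.prod - 1 ∈ W k β 3 := by
  induction L with
  | nil => simp
  | cons a L ih =>
    rw [List.prod_cons]
    have h1 := hL a List.mem_cons_self
    have h2 := ih fun b hb => hL b (List.mem_cons_of_mem _ hb)
    have h3 : a * L.prod - 1 = (a - 1) * (L.prod - 1) + ((a - 1) + (L.prod - 1)) := by
      noncomm_ring
    rw [h3]
    exact add_mem (W_anti k (by omega) (mul_mem_W k h1 h2)) (add_mem h1 h2)

lemma pow_sub_one_mem {a : A} (ha : a - 1 ∈ W k β 3) (n : ℕ) : a ^ n - 1 ∈ W k β 3 := by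
  rw [← List.prod_replicate]
  apply list_prod_sub_one
  intro b hb
  rw [List.eq_of_mem_replicate hb]
  exact ha

lemma beta_pow_mem (i : Fin r) (m : ℕ) : β i ^ m ∈ W k β m := by
  have := wd_mem_W (β := β) k (List.replicate m i) (m := m) (by simp)
  simpa [wd] using this

lemma pow_q_sub_one (q : ℕ) (hq1 : (q : k) = 0) (hq2 : ((q.choose 2 : ℕ) : k) = 0) (i : Fin r) :
    (β i + 1) ^ q - 1 ∈ W k β 3 := by
  have h1 : (β i + 1) ^ q = ∑ m ∈ Finset.range (q + 1), (q.choose m : k) • β i ^ m := by
    rw [(Commute.one_right (β i)).add_pow]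
    apply Finset.sum_congr rfl
    intro m _
    rw [one_pow, mul_one, Algebra.smul_def, map_natCast, Nat.cast_comm]
  rw [h1, Finset.sum_range_succ', Nat.choose_zero_right, Nat.cast_one, one_smul, pow_zero,
    add_sub_cancel_right]
  apply Submodule.sum_mem
  intro m _
  rcases m with _ | _ | m
  · rw [Nat.zero_add, Nat.choose_one_right, hq1, zero_smul]; exact zero_mem _
  · rw [show 0 + 1 + 1 = 2 from rfl, hq2, zero_smul]; exact zero_mem _
  · exact Submodule.smul_mem _ _ (W_anti k (by omega) (beta_pow_mem i (m + 1 + 1 + 1)))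

end alg

section chart
variable {p r s q t n₀ : ℕ} {k : Type*} [CommRing k] {Q : Type*} [Group Q]

/-- coefficients, as a linear map -/
noncomputable def cfL (k : Type*) [CommRing k] (Q : Type*) [Group Q] :
    MonoidAlgebra k Q →ₗ[k] (Q →₀ k) where
  toFun a := a.coeff
  map_add' a b := MonoidAlgebra.coeff_add a b
  map_smul' c a := MonoidAlgebra.coeff_smul c a

/-- functional on the group algebra -/
noncomputable def fn (f : Q → k) : MonoidAlgebra k Q →ₗ[k] k :=
  (Finsupp.linearCombination k f).comp (cfL k Q)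

lemma fn_of (f : Q → k) (a : Q) : fn f (MonoidAlgebra.of k Q a) = f a := by
  show Finsupp.linearCombination k f (MonoidAlgebra.of k Q a).coeff = f a
  rw [MonoidAlgebra.of_apply, MonoidAlgebra.coeff_single, Finsupp.linearCombination_single, one_smul]

/-- the elements `g i - 1` of the group ring -/
noncomputable def bet (k : Type*) [CommRing k] {Q : Type*} [Group Q] {r : ℕ} (g : Fin r → Q)
    (i : Fin r) : MonoidAlgebra k Q := MonoidAlgebra.of k Q (g i) - 1

lemma comm_mem (hq1 : (q : k) = 0) (hq2 : ((q.choose 2 : ℕ) : k) = 0) (g : Fin r → Q)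
    (hcomm : ∀ i j, ∃ y, g j * g i = g i * g j * psi (fun l => g l ^ q) y) (i j : Fin r) :
    bet k g j * bet k g i - bet k g i * bet k g j ∈ W k (bet k g) 3 := by
  obtain ⟨y, hy⟩ := hcomm i j
  set T := MonoidAlgebra.of k Q with hT
  have ha : ∀ l, T (g l) = bet k g l + 1 := fun l => by rw [bet, sub_add_cancel]
  have h1 : bet k g j * bet k g i - bet k g i * bet k g j =
      T (g i) * T (g j) * (T (psi (fun l => g l ^ q) y) - 1) := by
    have h2 : T (g j) * T (g i) = T (g i) * T (g j) * T (psi (fun l => g l ^ q) y) := by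
      rw [← map_mul, hy, map_mul, map_mul]
    rw [mul_sub, ← h2, mul_one]
    simp only [bet]
    noncomm_ring
  have h3 : ∀ l, T (g l) ∈ W k (bet k g) 0 := by
    intro l
    rw [ha]
    exact add_mem (W_anti k (Nat.zero_le 1) (beta_mem_W k l)) (one_mem_W k)
  have h4 : T (psi (fun l => g l ^ q) y) - 1 ∈ W k (bet k g) 3 := by
    rw [map_psi]
    apply list_prod_sub_one
    intro a ha'
    obtain ⟨l, rfl⟩ := List.mem_ofFn.1 ha'
    apply pow_sub_one_mem
    show T (g l ^ q) - 1 ∈ _
    rw [map_pow, ha]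
    exact pow_q_sub_one q hq1 hq2 l
  rw [h1]
  have := mul_mem_W k (mul_mem_W k (h3 i) (h3 j)) h4
  simpa using this

/-- **the law in ordered coordinates** -/
theorem law_chart [hp : Fact p.Prime] (hk : (p : k) ^ s = 0)
    (hq1 : (q : k) = 0) (hq2 : ((q.choose 2 : ℕ) : k) = 0) [Finite Q] (hQ : IsPGroup p Q)
    (g : Fin r → Q) (rep : Q → (Fin r →₀ ℕ)) (hrep : ∀ a, psi g (rep a) = a)
    (hcomm : ∀ i j, ∃ y, g j * g i = g i * g j * psi (fun l => g l ^ q) y)
    (hinj : ∀ x y, psi g x = psi g y → ∀ i, x i ≡ y i [MOD p ^ (s * (n₀ + 1))]) :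
    Law (F := k) (fun x y => rep (psi g x * psi g y)) n₀ := by
  intro h n hn hh γ' γ'' hγ
  have hK : K (n + 1) h := K_of_coV (n + 1) h hh
  have hrx : ∀ x, h (rep (psi g x)) = h x := fun x =>
    K_congr_mod p s hk n n₀ hn hK _ _ (hinj _ _ (hrep _))
  set T := MonoidAlgebra.of k Q with hT
  set a : Fin r → MonoidAlgebra k Q := fun i => T (g i) with ha
  set Φ := fn (fun b => h (rep b)) with hΦ
  have hΦx : ∀ x, Φ (psi a x) = h x := by
    intro x
    rw [ha, ← map_psi, hΦ, fn_of, hrx]
  have hco : ∀ γ, coV h γ = Φ (mono (bet k g) γ) := by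
    intro γ
    have h1 := coV_psi a Φ γ
    have h2 : (fun x => Φ (psi a x)) = h := funext hΦx
    rw [h2] at h1
    exact h1
  have hxy : ∀ x y, h (rep (psi g x * psi g y)) = Φ (psi a x * psi a y) := by
    intro x y
    have h1 : psi a x * psi a y = T (psi g x * psi g y) := by
      rw [map_mul, map_psi, map_psi]
    rw [h1, hΦ, fn_of]
  have h1 : (fun y => coV (fun x => h (rep (psi g x * psi g y))) γ') =
      fun y => Φ (mono (bet k g) γ' * psi a y) := by
    funext y
    have h2 := coV_psi a (Φ.comp (LinearMap.mulRight k (psi a y))) γ'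
    have h3 : (fun x => h (rep (psi g x * psi g y))) = fun x =>
        (Φ.comp (LinearMap.mulRight k (psi a y))) (psi a x) := by
      funext x
      rw [hxy]; rfl
    rw [h3]
    exact h2
  have h2 : coV (fun y => Φ (mono (bet k g) γ' * psi a y)) γ'' =
      Φ (mono (bet k g) γ' * mono (bet k g) γ'') := by
    exact coV_psi a (Φ.comp (LinearMap.mulLeft k (mono (bet k g) γ'))) γ''
  obtain ⟨L, hL⟩ := exists_nilp p s hQ (k := k) hk
  have hL' : ∀ w : List (Fin r), L ≤ w.length → wd (bet k g) w = 0 := by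
    intro w hw
    have := hL (w.map g) (by rwa [List.length_map])
    rw [List.map_map] at this
    exact this
  have h3 := top_mul (comm_mem hq1 hq2 g hcomm) hL' Φ n (fun γ hγ => by
    rw [← hco]; exact hh γ hγ) γ' γ'' hγ
  show coV (fun y => coV (fun x => h (rep (psi g x * psi g y))) γ') γ'' = _
  rw [h1, h2, h3, hco]

theorem nv_chart [hp : Fact p.Prime] (hk : (p : k) ^ s = 0)
    (hq1 : (q : k) = 0) (hq2 : ((q.choose 2 : ℕ) : k) = 0) (hr1 : 1 ≤ r) [Finite Q]
    (hQ : IsPGroup p Q) (g : Fin r → Q) (hsurj : ∀ a, ∃ x, psi g x = a)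
    (hcomm : ∀ i j, ∃ y, g j * g i = g i * g j * psi (fun l => g l ^ q) y)
    (hinj : ∀ x y, psi g x = psi g y → ∀ i, x i ≡ y i [MOD p ^ (s * (n₀ + 1))])
    (χ : Q → Fin r → k) (hχ : ∀ a b, χ (a * b) = χ a + χ b)
    (hχg : ∀ i j, χ (g i) j = if i = j then 1 else 0)
    (c : List Q → k) (lam : k)
    (hinv : ∀ a l, l.length = r → c (l.map (a * ·)) = c l)
    (hd : ∀ l, l.length = r + 1 → HSF.dl c l = lam * HSF.vol r (l.map χ))
    (hper : Per (p ^ t) (fun m : List (Fin r →₀ ℕ) => c (1 :: pp (· * ·) 1 (m.map (psi g)))))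
    (hn₀ : r + (r - 1) * (r * (p ^ t * s)) ≤ n₀) : (r.factorial : k) * lam = 0 := by
  classical
  choose rep hrep using hsurj
  set op : (Fin r →₀ ℕ) → (Fin r →₀ ℕ) → (Fin r →₀ ℕ) := fun x y => rep (psi g x * psi g y) with hop
  have hpsi : ∀ x y, psi g (op x y) = psi g x * psi g y := fun x y => hrep _
  have hassoc : ∀ x y z, op (op x y) z = op x (op y z) := by
    intro x y z
    show rep (psi g (op x y) * psi g z) = rep (psi g x * psi g (op y z))
    rw [hpsi, hpsi, mul_assoc]
  have hlaw : Law (F := k) op n₀ := law_chart hk hq1 hq2 hQ g rep hrep hcomm hinj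
  set f : List (Fin r →₀ ℕ) → k := fun m => c (1 :: pp (· * ·) 1 (m.map (psi g))) with hf
  -- the character
  set χ' : (Fin r →₀ ℕ) → (Fin r → k) := fun x i => (x i : k) with hχ'
  have hχ1 : χ 1 = 0 := by
    have := hχ 1 1
    rw [mul_one] at this
    exact left_eq_add.1 this
  have hχpow : ∀ (a : Q) (n : ℕ), χ (a ^ n) = n • χ a := by
    intro a n
    induction n with
    | zero => rw [pow_zero, hχ1, zero_smul]
    | succ n ih => rw [pow_succ, hχ, ih, add_smul, one_smul]
  have hχlist : ∀ L : List Q, χ L.prod = (L.map χ).sum := by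
    intro L
    induction L with
    | nil => rw [List.prod_nil, hχ1]; rfl
    | cons a L ih => rw [List.prod_cons, hχ, ih, List.map_cons, List.sum_cons]
  have hχpsi : ∀ x, χ (psi g x) = χ' x := by
    intro x
    rw [psi, hχlist, List.map_ofFn, List.sum_ofFn]
    funext j
    rw [Finset.sum_apply, Finset.sum_eq_single j]
    · rw [Function.comp, hχpow, Pi.smul_apply, hχg, if_pos rfl, hχ', nsmul_eq_mul, mul_one]
    · intro i _ hij
      rw [Function.comp, hχpow, Pi.smul_apply, hχg, if_neg hij, smul_zero]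
    · intro h; exact absurd (Finset.mem_univ _) h
  have hχ'add : ∀ x y, χ' (x + y) = χ' x + χ' y := by
    intro x y
    funext i
    simp [hχ']
  set D : List (Fin r →₀ ℕ) → k := fun m => lam * ER χ' m with hD
  have hdf : ∀ m : List (Fin r →₀ ℕ), m.length = (r - 1) + 1 → del op f m = D m := by
    intro m hm
    have hm' : m.length = r := by omega
    have h0 : del op f m = del (· * ·) (fun L => c (1 :: pp (· * ·) 1 L)) (m.map (psi g)) :=
      del_map (psi g) op (· * ·) hpsi (fun L => c (1 :: pp (· * ·) 1 L)) m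
    rcases m with _ | ⟨x, l⟩
    · simp at hm
    · have h1 := del_of_dl (F := k) (fun a b : Q => a * b) mul_assoc 1 one_mul mul_one c (psi g x)
        (l.map (psi g)) (hinv _ _ (by simp at hm ⊢; omega))
      rw [h0, List.map_cons, ← h1, ← dl_eq_dl, hd _ (by simp at hm ⊢; omega)]
      rw [pp_mapG χ hχ, hχ1, ← List.map_cons, List.map_map]
      have h5 : χ ∘ psi g = χ' := funext hχpsi
      rw [h5]
      obtain ⟨v, hv⟩ := exists_ofFn (x :: l) hm'
      rw [hv, hD]
      simp only
      rw [ER_ofFn, List.map_ofFn, vol_ppR]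
      rfl
  have hMA : MA D := by
    intro pre x y l
    simp only [hD]
    rw [ER_add χ' hχ'add]; ring
  set T : List (Fin r →₀ ℕ) := List.ofFn (fun a => Finsupp.single a 1) with hT
  have hTunit : ∀ γ ∈ T, ∃ i, γ = Finsupp.single i 1 := by
    intro γ hγ
    obtain ⟨a, rfl⟩ := List.mem_ofFn.mp hγ
    exact ⟨_, rfl⟩
  have hTlen : T.length = r := by simp [hT]
  have hwT : wt T = r := by
    have : ∀ L : List (Fin r →₀ ℕ), (∀ γ ∈ L, ∃ i, γ = Finsupp.single i 1) → wt L = L.length := by
      intro L hL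
      induction L with
      | nil => rfl
      | cons γ L ih =>
        obtain ⟨i, rfl⟩ := hL γ List.mem_cons_self
        rw [wt_cons, ih (fun γ hγ => hL γ (List.mem_cons_of_mem _ hγ))]
        simp; omega
    rw [this T hTunit, hTlen]
  have hcard : Fintype.card (Fin r) = r := Fintype.card_fin r
  have h0 := shuf_co_eq_zeroL hlaw hassoc (r - 1) D
    (fun Γ hlen hwt => co_MA_eq_zero hMA Γ (by omega))
    ((r - 1) * (Fintype.card (Fin r) * (p ^ t * s))) (by rw [hcard]; exact hn₀) f
    (fun Γ hlen hwt => co_Per_eq_zero2' p t s hk hper Γ (by rw [hlen]; omega))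
    hdf T (by omega) (by omega)
  have h1 : shuf T (co D) = shuf T D := by
    apply shuf_perm_congr
    intro m hm
    exact co_MA_units hMA m (fun γ hγ => hTunit γ (hm.mem_iff.mp hγ))
  rw [h1, hD, shuf_mul, shuf_alt _ (ER_alt χ'), hT, ER_ofFn] at h0
  have h3 : (Matrix.of fun i => χ' (Finsupp.single i 1 : Fin r →₀ ℕ)) = 1 := by
    ext i j
    rw [Matrix.of_apply, Matrix.one_apply, hχ']
    simp [Finsupp.single_apply]
  rw [h3, Matrix.det_one, mul_one, List.length_ofFn] at h0
  linear_combination h0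

end chart

end Pool.Agent.Helper34.PA
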