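import Mathlib
import Pool.Agent.PG.Lev
import Pool.Agent.Helper34.PA.Chart

/-!
# Ordered coordinates of the second kind on a standard group
-/

set_option autoImplicit false
set_option linter.unusedSectionVars false

namespace Pool.Agent.Helper34.PA

open Pool.Agent.PG

variable {p r κ : ℕ} [hp : Fact p.Prime] {G : Type*} [Group G] [TopologicalSpace G] (W : Lw p r κ G)

section diff
variable {W}

lemma diff_left (hκ : 1 ≤ κ) {u v : G} {l : ℕ} (h : Dv l (W.φ u - W.φ v)) (b : G) :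
    Dv (κ + l) (W.φ (b * u) - W.φ (b * v) - (W.φ u - W.φ v)) := by
  have hw := W.dv_left hκ h
  have h1 := W.mul v (v⁻¹ * u) 0 l (dv_zero _) hw
  have h2 := W.mul (b * v) (v⁻¹ * u) 0 l (dv_zero _) hw
  rw [mul_inv_cancel_left] at h1
  rw [mul_assoc, mul_inv_cancel_left] at h2
  have h3 : W.φ (b * u) - W.φ (b * v) - (W.φ u - W.φ v) =
      (W.φ (b * u) - W.φ (b * v) - W.φ (v⁻¹ * u)) - (W.φ u - W.φ v - W.φ (v⁻¹ * u)) := by abel
  rw [h3]
  exact (h2.mono (by omega)).sub (h1.mono (by omega))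

lemma diff_right (hκ : 1 ≤ κ) {u v : G} {l : ℕ} (h : Dv l (W.φ u - W.φ v)) (b : G) :
    Dv (κ + l) (W.φ (u * b) - W.φ (v * b) - (W.φ u - W.φ v)) := by
  have hw := W.dv_right hκ h
  have h1 := W.mul (u * v⁻¹) v l 0 hw (dv_zero _)
  have h2 := W.mul (u * v⁻¹) (v * b) l 0 hw (dv_zero _)
  rw [inv_mul_cancel_right] at h1
  rw [← mul_assoc, inv_mul_cancel_right] at h2
  have h3 : W.φ (u * b) - W.φ (v * b) - (W.φ u - W.φ v) =
      (W.φ (u * b) - W.φ (u * v⁻¹) - W.φ (v * b)) - (W.φ u - W.φ (u * v⁻¹) - W.φ v) := by abel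
  rw [h3]
  exact (h2.mono (by omega)).sub (h1.mono (by omega))

lemma diff_mul (hκ : 1 ≤ κ) {u v u' v' : G} {l : ℕ} (h : Dv l (W.φ u - W.φ v))
    (h' : Dv l (W.φ u' - W.φ v')) :
    Dv (κ + l) (W.φ (u * u') - W.φ (v * v') - ((W.φ u - W.φ v) + (W.φ u' - W.φ v'))) := by
  have h1 := diff_right hκ h u'
  have h2 := diff_left hκ h' v
  have h3 : W.φ (u * u') - W.φ (v * v') - ((W.φ u - W.φ v) + (W.φ u' - W.φ v')) =
      (W.φ (u * u') - W.φ (v * u') - (W.φ u - W.φ v)) +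
      (W.φ (v * u') - W.φ (v * v') - (W.φ u' - W.φ v')) := by abel
  rw [h3]
  exact h1.add h2

lemma cong_mul (hκ : 1 ≤ κ) {u v u' v' : G} {l : ℕ} (h : Dv l (W.φ u - W.φ v))
    (h' : Dv l (W.φ u' - W.φ v')) : Dv l (W.φ (u * u') - W.φ (v * v')) := by
  have h1 := diff_mul hκ h h'
  have h3 : W.φ (u * u') - W.φ (v * v') =
      (W.φ (u * u') - W.φ (v * v') - ((W.φ u - W.φ v) + (W.φ u' - W.φ v'))) +
      ((W.φ u - W.φ v) + (W.φ u' - W.φ v')) := by abel
  rw [h3]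
  exact (h1.mono (by omega)).add (h.add h')

lemma diff_list (hκ : 1 ≤ κ) {l : ℕ} (n : ℕ) (u v : Fin n → G)
    (h : ∀ i, Dv l (W.φ (u i) - W.φ (v i))) :
    Dv l (W.φ (List.ofFn u).prod - W.φ (List.ofFn v).prod) ∧
    Dv (κ + l) (W.φ (List.ofFn u).prod - W.φ (List.ofFn v).prod - ∑ i, (W.φ (u i) - W.φ (v i))) := by
  induction n with
  | zero =>
    simp only [List.ofFn_zero, Finset.univ_eq_empty, Finset.sum_empty, sub_self]
    exact ⟨Dv.zero' _, Dv.zero' _⟩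
  | succ n ih =>
    obtain ⟨h1, h2⟩ := ih (fun i => u i.succ) (fun i => v i.succ) (fun i => h i.succ)
    rw [List.ofFn_succ, List.ofFn_succ, List.prod_cons, List.prod_cons, Fin.sum_univ_succ]
    refine ⟨cong_mul hκ (h 0) h1, ?_⟩
    have h3 := diff_mul hκ (h 0) h1
    have h4 : W.φ (u 0 * (List.ofFn fun i => u i.succ).prod) -
        W.φ (v 0 * (List.ofFn fun i => v i.succ).prod) -
        (W.φ (u 0) - W.φ (v 0) + ∑ i : Fin n, (W.φ (u i.succ) - W.φ (v i.succ))) =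
        (W.φ (u 0 * (List.ofFn fun i => u i.succ).prod) -
          W.φ (v 0 * (List.ofFn fun i => v i.succ).prod) -
          ((W.φ (u 0) - W.φ (v 0)) +
            (W.φ (List.ofFn fun i => u i.succ).prod - W.φ (List.ofFn fun i => v i.succ).prod))) +
        (W.φ (List.ofFn fun i => u i.succ).prod - W.φ (List.ofFn fun i => v i.succ).prod -
          ∑ i : Fin n, (W.φ (u i.succ) - W.φ (v i.succ))) := by abel
    rw [h4]
    exact h3.add h2

/-- powers by powers of `p` -/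
lemma pow_level (hκ : 1 ≤ κ) {x : G} {y : Fin r → ℤ_[p]} (hy : W.φ x = y) (l : ℕ) :
    Dv l (W.φ (x ^ p ^ l)) ∧ Dv (κ + l - 1) (W.φ (x ^ p ^ l) - (p : ℤ_[p]) ^ l • y) := by
  induction l with
  | zero =>
    refine ⟨dv_zero _, ?_⟩
    rw [pow_zero, pow_one, pow_zero, one_smul, hy, sub_self]
    exact Dv.zero' _
  | succ l ih =>
    have h1 := (W.pow_sub ih.1 p).2
    rw [← pow_mul, ← pow_succ] at h1
    have h2 : Dv (κ + l) ((p : ℤ_[p]) • (W.φ (x ^ p ^ l) - (p : ℤ_[p]) ^ l • y)) := by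
      have h3 := (dv_pow_smul (i := 1) (j := κ + l - 1)).2 ih.2
      rw [pow_one] at h3
      exact h3.mono (by omega)
    have h3 : Dv (κ + l) (W.φ (x ^ p ^ (l + 1)) - (p : ℤ_[p]) ^ (l + 1) • y) := by
      have h4 : W.φ (x ^ p ^ (l + 1)) - (p : ℤ_[p]) ^ (l + 1) • y =
          (W.φ (x ^ p ^ (l + 1)) - (p : ℤ_[p]) • W.φ (x ^ p ^ l)) +
          (p : ℤ_[p]) • (W.φ (x ^ p ^ l) - (p : ℤ_[p]) ^ l • y) := by
        rw [smul_sub, smul_smul, ← pow_succ']
        abel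
      rw [h4]
      exact (h1.mono (by omega)).add h2
    refine ⟨?_, h3.mono (by omega)⟩
    have h5 : W.φ (x ^ p ^ (l + 1)) = (W.φ (x ^ p ^ (l + 1)) - (p : ℤ_[p]) ^ (l + 1) • y) +
        (p : ℤ_[p]) ^ (l + 1) • y := by abel
    rw [h5]
    exact (h3.mono (by omega)).add (dv_iff.2 ⟨y, rfl⟩)

lemma pow_add_level (hκ : 2 ≤ κ) {x : G} {y : Fin r → ℤ_[p]} (hy : W.φ x = y) (l a t : ℕ) :
    Dv (l + 1) (W.φ (x ^ (a + p ^ l * t)) - W.φ (x ^ a) - ((p ^ l * t : ℕ) : ℤ_[p]) • y) ∧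
    Dv l (W.φ (x ^ (a + p ^ l * t)) - W.φ (x ^ a)) := by
  obtain ⟨h1, h2⟩ := pow_level (W := W) (by omega) hy l
  obtain ⟨h3, h4⟩ := W.pow_sub h1 t
  rw [← pow_mul] at h3 h4
  have h5 : Dv l (W.φ (x ^ (p ^ l * t)) - W.φ 1) := by
    rw [W.one, sub_zero]; exact h3
  have h6 := diff_left (by omega) h5 (x ^ a)
  rw [mul_one, ← pow_add, W.one, sub_zero] at h6
  have h7 : Dv (l + 1) (W.φ (x ^ (a + p ^ l * t)) - W.φ (x ^ a) - ((p ^ l * t : ℕ) : ℤ_[p]) • y) := by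
    have h8 : W.φ (x ^ (a + p ^ l * t)) - W.φ (x ^ a) - ((p ^ l * t : ℕ) : ℤ_[p]) • y =
        (W.φ (x ^ (a + p ^ l * t)) - W.φ (x ^ a) - W.φ (x ^ (p ^ l * t))) +
        ((W.φ (x ^ (p ^ l * t)) - (t : ℤ_[p]) • W.φ (x ^ p ^ l)) +
        (t : ℤ_[p]) • (W.φ (x ^ p ^ l) - (p : ℤ_[p]) ^ l • y)) := by
      rw [smul_sub, smul_smul]
      push_cast
      rw [mul_comm (t : ℤ_[p])]
      abel
    rw [h8]
    exact (h6.mono (by omega)).add ((h4.mono (by omega)).add ((h2.mono (by omega)).smul _))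
  refine ⟨h7, ?_⟩
  have h9 : W.φ (x ^ (a + p ^ l * t)) - W.φ (x ^ a) =
      (W.φ (x ^ (a + p ^ l * t)) - W.φ (x ^ a) - W.φ (x ^ (p ^ l * t))) + W.φ (x ^ (p ^ l * t)) := by
    abel
  rw [h9]
  exact (h6.mono (by omega)).add h3

end diff

/-- the basis -/
noncomputable def gg (i : Fin r) : G := W.φ.symm (Pi.single i 1)

lemma phi_gg (i : Fin r) : W.φ (gg W i) = Pi.single i 1 := W.φ.apply_symm_apply _

variable {W}

/-- coordinates of the second kind, to first order -/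
lemma psi_level (hκ : 2 ≤ κ) (l : ℕ) (x t : Fin r →₀ ℕ) :
    Dv (l + 1) (W.φ (psi (gg W) (x + p ^ l • t)) - W.φ (psi (gg W) x) -
      (p : ℤ_[p]) ^ l • (fun i => (t i : ℤ_[p]))) ∧
    Dv l (W.φ (psi (gg W) (x + p ^ l • t)) - W.φ (psi (gg W) x)) := by
  have h0 : ∀ i, (x + p ^ l • t) i = x i + p ^ l * t i := fun i => rfl
  have h1 := fun i => pow_add_level (W := W) hκ (phi_gg W i) l (x i) (t i)
  obtain ⟨h2, h3⟩ := diff_list (W := W) (by omega) r (fun i => gg W i ^ (x + p ^ l • t) i)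
    (fun i => gg W i ^ x i) (fun i => (h1 i).2)
  refine ⟨?_, h2⟩
  have h4 : Dv (l + 1) (∑ i, (W.φ (gg W i ^ (x + p ^ l • t) i) - W.φ (gg W i ^ x i)) -
      (p : ℤ_[p]) ^ l • (fun i => (t i : ℤ_[p]))) := by
    have h5 : (p : ℤ_[p]) ^ l • (fun i => (t i : ℤ_[p])) =
        ∑ i, ((p ^ l * t i : ℕ) : ℤ_[p]) • (Pi.single i 1 : Fin r → ℤ_[p]) := by
      funext j
      rw [Finset.sum_apply, Finset.sum_eq_single j]
      · simp
      · intro i _ hij
        rw [Pi.smul_apply, Pi.single_eq_of_ne hij.symm, smul_zero]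
      · intro h; exact absurd (Finset.mem_univ _) h
    rw [h5, ← Finset.sum_sub_distrib]
    have h6 : ∀ S : Finset (Fin r), Dv (l + 1) (∑ i ∈ S, ((W.φ (gg W i ^ (x + p ^ l • t) i) -
        W.φ (gg W i ^ x i)) - ((p ^ l * t i : ℕ) : ℤ_[p]) • (Pi.single i 1 : Fin r → ℤ_[p]))) := by
      intro S
      classical
      induction S using Finset.induction_on with
      | empty => rw [Finset.sum_empty]; exact Dv.zero' _
      | insert a S ha ih => rw [Finset.sum_insert ha]; exact ((h1 a).1).add ih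
    exact h6 Finset.univ
  have h7 : W.φ (psi (gg W) (x + p ^ l • t)) - W.φ (psi (gg W) x) -
      (p : ℤ_[p]) ^ l • (fun i => (t i : ℤ_[p])) =
      (W.φ (psi (gg W) (x + p ^ l • t)) - W.φ (psi (gg W) x) -
        ∑ i, (W.φ (gg W i ^ (x + p ^ l • t) i) - W.φ (gg W i ^ x i))) +
      (∑ i, (W.φ (gg W i ^ (x + p ^ l • t) i) - W.φ (gg W i ^ x i)) -
      (p : ℤ_[p]) ^ l • (fun i => (t i : ℤ_[p]))) := by abel
  rw [h7]
  exact (Dv.mono (by omega) h3).add h4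

lemma exists_common {r P : ℕ} (x y : Fin r →₀ ℕ) (h : ∀ i, x i ≡ y i [MOD P]) :
    ∃ a b : Fin r →₀ ℕ, x + P • a = y + P • b := by
  refine ⟨Finsupp.equivFunOnFinite.symm (fun i => (y i - x i) / P),
    Finsupp.equivFunOnFinite.symm (fun i => (x i - y i) / P), ?_⟩
  ext i
  show x i + P * ((y i - x i) / P) = y i + P * ((x i - y i) / P)
  rcases le_total (x i) (y i) with h3 | h3
  · have h4 := (Nat.modEq_iff_dvd' h3).1 (h i)
    rw [Nat.mul_div_cancel' h4, Nat.sub_eq_zero_of_le h3, Nat.zero_div]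
    omega
  · have h4 := (Nat.modEq_iff_dvd' h3).1 (h i).symm
    rw [Nat.mul_div_cancel' h4, Nat.sub_eq_zero_of_le h3, Nat.zero_div]
    omega

/-- C1, first half -/
lemma psi_cong (hκ : 2 ≤ κ) (l : ℕ) (x y : Fin r →₀ ℕ) (h : ∀ i, x i ≡ y i [MOD p ^ l]) :
    Dv l (W.φ (psi (gg W) x) - W.φ (psi (gg W) y)) := by
  obtain ⟨a, b, hab⟩ := exists_common x y h
  have h1 := (psi_level (W := W) hκ l x a).2
  have h2 := (psi_level (W := W) hκ l y b).2
  rw [hab] at h1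
  have h3 : W.φ (psi (gg W) x) - W.φ (psi (gg W) y) =
      (W.φ (psi (gg W) (y + p ^ l • b)) - W.φ (psi (gg W) y)) -
      (W.φ (psi (gg W) (y + p ^ l • b)) - W.φ (psi (gg W) x)) := by abel
  rw [h3]
  exact h2.sub h1

/-- C1, second half -/
lemma psi_inj (hκ : 2 ≤ κ) (l : ℕ) (x y : Fin r →₀ ℕ)
    (h : Dv l (W.φ (psi (gg W) x) - W.φ (psi (gg W) y))) : ∀ i, x i ≡ y i [MOD p ^ l] := by
  induction l with
  | zero => intro i; rw [pow_zero]; exact Nat.modEq_one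
  | succ l ih =>
    have h0 := ih (h.mono (by omega))
    obtain ⟨a, b, hab⟩ := exists_common x y h0
    have h1 := (psi_level (W := W) hκ l x a).1
    have h2 := (psi_level (W := W) hκ l y b).1
    rw [hab] at h1
    have h3 : (p : ℤ_[p]) ^ l • ((fun i => (b i : ℤ_[p])) - (fun i => (a i : ℤ_[p]))) =
        (W.φ (psi (gg W) (y + p ^ l • b)) - W.φ (psi (gg W) x) -
          (p : ℤ_[p]) ^ l • (fun i => (a i : ℤ_[p]))) -
        (W.φ (psi (gg W) (y + p ^ l • b)) - W.φ (psi (gg W) y) -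
          (p : ℤ_[p]) ^ l • (fun i => (b i : ℤ_[p]))) +
        (W.φ (psi (gg W) x) - W.φ (psi (gg W) y)) := by
      rw [smul_sub]; abel
    have h4 : Dv (l + 1) ((p : ℤ_[p]) ^ l • ((fun i => (b i : ℤ_[p])) - (fun i => (a i : ℤ_[p])))) := by
      rw [h3]
      exact (h1.sub h2).add h
    rw [dv_pow_smul] at h4
    intro i
    have h5 : (p : ℤ_[p]) ∣ ((b i : ℤ) - (a i : ℤ) : ℤ) := by
      have := h4 i
      rw [pow_one, Pi.sub_apply] at this
      push_cast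
      exact this
    have h6 : (p : ℤ) ∣ (b i : ℤ) - (a i : ℤ) := by
      have h7 := (PadicInt.norm_int_le_pow_iff_dvd (p := p) (k := (b i : ℤ) - (a i : ℤ)) (n := 1)).1 (by
        rw [norm_le_iff_dvd, pow_one]; exact h5)
      simpa using h7
    have h8 : x i + p ^ l * a i = y i + p ^ l * b i := DFunLike.congr_fun hab i
    have h9 : (x i : ℤ) + (p : ℤ) ^ l * a i = y i + (p : ℤ) ^ l * b i := by exact_mod_cast h8
    have h10 : ((p ^ (l + 1) : ℕ) : ℤ) ∣ (y i : ℤ) - (x i : ℤ) := by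
      obtain ⟨c, hc⟩ := h6
      refine ⟨-c, ?_⟩
      push_cast
      rw [pow_succ]
      linear_combination (p : ℤ) ^ l * hc * (-1) - h9
    exact (Nat.modEq_iff_dvd).2 h10

/-- C2 -/
lemma psi_surj (hκ : 2 ≤ κ) (l : ℕ) (h : G) : ∃ x, Dv l (W.φ (psi (gg W) x) - W.φ h) := by
  induction l with
  | zero => exact ⟨0, dv_zero _⟩
  | succ l ih =>
    obtain ⟨x, hx⟩ := ih
    obtain ⟨w, hw⟩ := dv_iff.1 hx
    set t : Fin r →₀ ℕ := Finsupp.equivFunOnFinite.symm (fun i => (PadicInt.toZMod (-(w i))).val) with ht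
    refine ⟨x + p ^ l • t, ?_⟩
    have h1 := (psi_level (W := W) hκ l x t).1
    have h2 : W.φ (psi (gg W) (x + p ^ l • t)) - W.φ h =
        (W.φ (psi (gg W) (x + p ^ l • t)) - W.φ (psi (gg W) x) -
          (p : ℤ_[p]) ^ l • (fun i => (t i : ℤ_[p]))) +
        (p : ℤ_[p]) ^ l • (w + (fun i => (t i : ℤ_[p]))) := by
      rw [smul_add, ← hw]; abel
    rw [h2]
    refine h1.add ?_
    rw [dv_pow_smul]
    intro i
    rw [pow_one, ← toZMod_eq_zero, Pi.add_apply, map_add, map_natCast]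
    have h3 : t i = (PadicInt.toZMod (-(w i))).val := rfl
    rw [h3, ZMod.natCast_zmod_val, map_neg, add_neg_cancel]

/-- C3 -/
lemma comm_psi (hκ : 2 ≤ κ) (l : ℕ) (hl : κ ≤ l) (i j : Fin r) : ∃ y : Fin r →₀ ℕ,
    Dv l (W.φ (gg W j * gg W i) - W.φ (gg W i * gg W j * psi (fun a => gg W a ^ p ^ κ) y)) := by
  set z : G := (gg W i * gg W j)⁻¹ * (gg W j * gg W i) with hz
  have h1 : Dv κ (W.φ (gg W j * gg W i) - W.φ (gg W i * gg W j)) := by
    have h2 := W.mul (gg W i) (gg W j) 0 0 (dv_zero _) (dv_zero _)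
    have h3 := W.mul (gg W j) (gg W i) 0 0 (dv_zero _) (dv_zero _)
    have h4 : W.φ (gg W j * gg W i) - W.φ (gg W i * gg W j) =
        (W.φ (gg W j * gg W i) - W.φ (gg W j) - W.φ (gg W i)) -
        (W.φ (gg W i * gg W j) - W.φ (gg W i) - W.φ (gg W j)) := by abel
    rw [h4]
    exact h3.sub h2
  have h2 : Dv κ (W.φ z) := W.dv_left (by omega) h1
  obtain ⟨x, hx⟩ := psi_surj (W := W) hκ l z
  have h3 : ∀ a, x a ≡ (0 : Fin r →₀ ℕ) a [MOD p ^ κ] := by
    apply psi_inj (W := W) hκ κ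
    have h4 : psi (gg W) (0 : Fin r →₀ ℕ) = 1 := by
      unfold psi
      simp
    rw [h4, W.one, sub_zero]
    have h5 : W.φ (psi (gg W) x) = (W.φ (psi (gg W) x) - W.φ z) + W.φ z := by abel
    rw [h5]
    exact (hx.mono hl).add h2
  have h4 : ∀ a, p ^ κ ∣ x a := fun a => (Nat.modEq_zero_iff_dvd).1 (h3 a)
  choose y hy using h4
  refine ⟨Finsupp.equivFunOnFinite.symm y, ?_⟩
  have h5 : psi (fun a => gg W a ^ p ^ κ) (Finsupp.equivFunOnFinite.symm y) = psi (gg W) x := by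
    unfold psi
    congr 2
    funext a
    rw [← pow_mul]
    congr 1
    exact (hy a).symm
  rw [h5]
  have h6 : gg W j * gg W i = gg W i * gg W j * z := by rw [hz, mul_inv_cancel_left]
  rw [h6]
  have h7 := diff_left (W := W) (by omega) (dv_comm.1 hx) (gg W i * gg W j)
  have h8 : W.φ (gg W i * gg W j * z) - W.φ (gg W i * gg W j * psi (gg W) x) =
      (W.φ (gg W i * gg W j * z) - W.φ (gg W i * gg W j * psi (gg W) x) -
        (W.φ z - W.φ (psi (gg W) x))) + (W.φ z - W.φ (psi (gg W) x)) := by abel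
  rw [h8]
  exact (h7.mono (by omega)).add (dv_comm.1 hx)

end Pool.Agent.Helper34.PA
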